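import Pool.Agent.H16.HE.S8.TH120.Sec.DiagCount
import Pool.Agent.H16.HE.S8.TH377.Sup.Cnt

/-!
# Counting the good coefficients modulo the square of a prime
-/

set_option autoImplicit false

namespace Pool.Agent.TH377.Sup

open Polynomial NumberField IsDedekindDomain Pool.Agent.TH120.Sec

universe u

variable {K : Type u} [Field K] [NumberField K] (v : HeightOneSpectrum (𝓞 K))

/-- irreducibility modulo the prime -/
def IrrMod (d : ℕ) (y : Fin (d + 1) → 𝓞 K) : Prop :=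
  y (Fin.last d) ∉ v.asIdeal ∧ Irreducible (pol fun i => Ideal.Quotient.mk v.asIdeal (y i))

/-- the good vectors modulo `v ^ 2` -/
def GoodV (d : ℕ) : Set (Fin (d + 2) → 𝓞 K ⧸ v.asIdeal ^ 2) :=
  {x | pr v (x 0) = 0 ∧ x 0 ≠ 0 ∧ pr v (x (Fin.last d).succ) ≠ 0 ∧
    Irreducible (pol fun i : Fin (d + 1) => pr v (x i.succ))}

lemma good_iff (d : ℕ) (y : Fin (d + 2) → 𝓞 K) (hy : red (v.asIdeal ^ 2) (d + 2) y ∈ GoodV v d) :
    y 0 ∈ v.asIdeal ∧ y 0 ∉ v.asIdeal ^ 2 ∧ IrrMod v d fun i => y i.succ := by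
  obtain ⟨h1, h2, h3, h4⟩ := hy
  refine ⟨?_, ?_, ?_, h4⟩
  · exact Ideal.Quotient.eq_zero_iff_mem.1 h1
  · exact fun h => h2 (Ideal.Quotient.eq_zero_iff_mem.2 h)
  · exact fun h => h3 (Ideal.Quotient.eq_zero_iff_mem.2 h)

lemma goodV_card (d : ℕ) (hd : 3 ≤ d) :
    (Ideal.absNorm v.asIdeal - 1) ^ 2 * Ideal.absNorm v.asIdeal ^ (2 * d + 1) ≤
      2 * d * (GoodV v d).ncard := by
  classical
  have hfin := finite_sq v
  have hmax : v.asIdeal.IsMaximal := v.isMaximal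
  have hfin' : Finite (𝓞 K ⧸ v.asIdeal) := Ideal.finiteQuotientOfFreeOfNeBot _ v.ne_bot
  let _ : Field (𝓞 K ⧸ v.asIdeal) := Ideal.Quotient.field _
  set N := Ideal.absNorm v.asIdeal with hN
  have hq := irr_card (𝓞 K ⧸ v.asIdeal) d hd
  rw [card_residue, ← hN] at hq
  set J : Set (𝓞 K ⧸ v.asIdeal ^ 2) := {x | pr v x = 0} with hJ
  have hJc : J.ncard = N := ker_ncard v
  have hJ0 : (J \ {0}).ncard = N - 1 := by
    rw [Set.ncard_sdiff_singleton_of_mem (show (0 : 𝓞 K ⧸ v.asIdeal ^ 2) ∈ J from map_zero _), hJc]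
  have hJp : (Set.pi Set.univ fun _ : Fin (d + 1) => J).ncard = N ^ (d + 1) := by
    rw [← Nat.card_coe_set_eq, Nat.card_congr (Equiv.Set.univPi _), Nat.card_pi]
    simp only [Nat.card_coe_set_eq, hJc, Finset.prod_const, Finset.card_univ, Fintype.card_fin]
  let s := Function.surjInv (pr_surj v)
  have hs : ∀ x, pr v (s x) = x := Function.surjInv_eq (pr_surj v)
  have h1 : (((J \ {0}) ×ˢ (Irr (𝓞 K ⧸ v.asIdeal) d)) ×ˢ
      (Set.pi Set.univ fun _ : Fin (d + 1) => J)).ncard ≤ (GoodV v d).ncard := by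
    refine Set.ncard_le_ncard_of_injOn
      (fun x => Fin.cons x.1.1 fun i => s (x.1.2 i) + x.2 i) ?_ ?_ (Set.toFinite _)
    · rintro ⟨⟨j, c⟩, t⟩ ⟨⟨hj, hc⟩, ht⟩
      have e1 : ∀ i, pr v (s (c i) + t i) = c i := by
        intro i
        rw [map_add, hs, show pr v (t i) = 0 from ht i (Set.mem_univ i), add_zero]
      refine ⟨hj.1, hj.2, ?_, ?_⟩
      · change pr v (s (c (Fin.last d)) + t (Fin.last d)) ≠ 0
        rw [e1]
        exact hc.1
      · change Irreducible (pol fun i : Fin (d + 1) => pr v (s (c i) + t i))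
        simp only [e1]
        exact hc.2
    · rintro ⟨⟨j, c⟩, t⟩ ⟨⟨hj, hc⟩, ht⟩ ⟨⟨j', c'⟩, t'⟩ ⟨⟨hj', hc'⟩, ht'⟩ h
      have h0 : j = j' := congrFun h 0
      have h1 : ∀ i : Fin (d + 1), s (c i) + t i = s (c' i) + t' i := fun i => congrFun h i.succ
      have e1 : c = c' := by
        funext i
        have := congrArg (pr v) (h1 i)
        rwa [map_add, map_add, hs, hs, show pr v (t i) = 0 from ht i (Set.mem_univ i),
          show pr v (t' i) = 0 from ht' i (Set.mem_univ i), add_zero, add_zero] at this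
      subst h0 e1
      have e2 : t = t' := by
        funext i
        have := h1 i
        rwa [add_right_inj] at this
      rw [e2]
  rw [Set.ncard_prod, Set.ncard_prod, hJp, hJ0] at h1
  calc (N - 1) ^ 2 * N ^ (2 * d + 1) = (N - 1) * ((N - 1) * N ^ d) * N ^ (d + 1) := by ring
    _ ≤ (N - 1) * (2 * d * (Irr (𝓞 K ⧸ v.asIdeal) d).ncard) * N ^ (d + 1) := by
        gcongr
    _ = 2 * d * ((N - 1) * (Irr (𝓞 K ⧸ v.asIdeal) d).ncard * N ^ (d + 1)) := by ring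
    _ ≤ 2 * d * (GoodV v d).ncard := Nat.mul_le_mul_left _ h1

/-- the complement of the good vectors -/
lemma badV_card (d : ℕ) (hd : 3 ≤ d) :
    (((GoodV v d)ᶜ).ncard : ℝ) ≤ (1 - (1 / (4 * d)) * (1 / (Ideal.absNorm v.asIdeal : ℝ) -
      1 / (Ideal.absNorm v.asIdeal : ℝ) ^ 2)) * ((Ideal.absNorm v.asIdeal : ℝ) ^ 2) ^ (d + 2) := by
  classical
  have hfin := finite_sq v
  have h1 := goodV_card v d hd
  have h2 : (GoodV v d).ncard + ((GoodV v d)ᶜ).ncard = (Ideal.absNorm v.asIdeal ^ 2) ^ (d + 2) := by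
    rw [Set.ncard_add_ncard_compl, Nat.card_fun, Pool.Agent.W417.SecC.D2.card_sq, Nat.card_fin]
  set N := Ideal.absNorm v.asIdeal with hN
  have hN2 : 2 ≤ N := by
    by_contra h
    have h3 : N = 0 ∨ N = 1 := by omega
    rcases h3 with h3 | h3
    · exact absurd h3 (Pool.Agent.W417.SecC.D2.norm_pos v).ne'
    · rw [hN, Ideal.absNorm_eq_one_iff] at h3
      exact v.isPrime.ne_top h3
  have h3 : ((GoodV v d).ncard : ℝ) + (((GoodV v d)ᶜ).ncard : ℝ) = ((N : ℝ) ^ 2) ^ (d + 2) := by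
    exact_mod_cast h2
  have h4 : ((N : ℝ) - 1) ^ 2 * (N : ℝ) ^ (2 * d + 1) ≤ 2 * d * ((GoodV v d).ncard : ℝ) := by
    have h5 : ((N - 1 : ℕ) : ℝ) = (N : ℝ) - 1 := by
      rw [Nat.cast_sub (by omega)]
      norm_num
    rw [← h5]
    exact_mod_cast h1
  have hNr : (2 : ℝ) ≤ N := by exact_mod_cast hN2
  have hdr : (0 : ℝ) < d := by
    have : 0 < d := by omega
    exact_mod_cast this
  have h6 : (1 - (1 / (4 * d)) * (1 / (N : ℝ) - 1 / (N : ℝ) ^ 2)) * ((N : ℝ) ^ 2) ^ (d + 2) =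
      ((N : ℝ) ^ 2) ^ (d + 2) - (1 / (4 * d)) * (((N : ℝ) - 1) * (N : ℝ) ^ (2 * d + 2)) := by
    have hN0 : (N : ℝ) ≠ 0 := by linarith
    have h7 : ((N : ℝ) ^ 2) ^ (d + 2) = (N : ℝ) ^ 2 * (N : ℝ) ^ (2 * d + 2) := by ring
    rw [h7]
    field_simp
  rw [h6]
  have h7 : (1 / 2) * (((N : ℝ) - 1) * (N : ℝ) ^ (2 * d + 2)) ≤
      ((N : ℝ) - 1) ^ 2 * (N : ℝ) ^ (2 * d + 1) := by
    have h9 : 0 ≤ ((N : ℝ) - 1) * (N : ℝ) ^ (2 * d + 1) := by
      apply mul_nonneg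
      · linarith
      · positivity
    have h10 : (N : ℝ) ^ (2 * d + 2) = (N : ℝ) ^ (2 * d + 1) * N := pow_succ _ _
    rw [h10]
    nlinarith
  have h8 : (1 / (4 * d)) * (((N : ℝ) - 1) * (N : ℝ) ^ (2 * d + 2)) ≤
      ((GoodV v d).ncard : ℝ) := by
    have h9 := h7.trans h4
    have h10 : (1 / (4 * d)) * (((N : ℝ) - 1) * (N : ℝ) ^ (2 * d + 2)) =
        ((1 / 2) * (((N : ℝ) - 1) * (N : ℝ) ^ (2 * d + 2))) / (2 * d) := by
      field_simp
      ring
    rw [h10, div_le_iff₀ (by positivity)]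
    linarith
  linarith

end Pool.Agent.TH377.Sup
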